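import Mathlib
import Pool.Agent.Work.MP_974d84_co_k5.DefsW

/-!
# Line G (large girth and an explicit cyclic connectivity): facts about cores
-/

set_option linter.unusedSectionVars false

namespace Pool.Agent.K5.Gth

open Finset SimpleGraph Pool.Agent.Exp Pool.Agent.Log5 Pool.Agent.Log5.Clu

/-- Facts about the cores which follow from large girth alone (no field `sep`; `cyc` is the
consequence for cyclic subsets of the regions). -/
structure FactsR {V : Type} [Fintype V] [DecidableEq V] (G : SimpleGraph V) [DecidableRel G.Adj]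
    (C : ℝ) (N k : ℕ) {r : ℕ} (S : Fin r → Finset V) : Prop where
  large : ∀ i, k ≤ (S i).card
  joined : ∀ i, Joined G (S i)
  bdry : ∀ i, N * dd G (S i) ≤ (S i).card
  ratio : ∀ i, ∀ A ⊆ S i, 3 * A.card ≤ 2 * (S i).card →
    100 * ee G A (S i)ᶜ ≤ 123 * ee G A (S i \ A)
  light : ∀ X : Finset V, X.Nonempty → (∀ j, 3 * (X ∩ S j).card ≤ 2 * (S j).card) →
    gf C X.card ≤ 4 * dd G X
  half : ∀ i, ∀ A ⊆ S i, (S i).card ≤ 2 * A.card → gf C (S i).card ≤ 10 * dd G A
  cyc : ∀ R, Region S R → ∀ Z ⊆ R, ¬ (G.induce (Z : Set V)).IsAcyclic →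
    ¬ (G.induce ((Zᶜ : Finset V) : Set V)).IsAcyclic → k ≤ dd G Z

end Pool.Agent.K5.Gth
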