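import Mathlib
import Pool.Agent.Work.MP_974d84_co_kg.DefsG
import Pool.Agent.Work.MP_974d84_co_k5.CoreFactsB
import Pool.Agent.Work.MP_974d84_co_k5.Gf

/-!
# Line G: the facts about cores follow from large girth
-/

set_option linter.unusedSectionVars false

namespace Pool.Agent.K5.Gth

open Finset SimpleGraph Pool.Agent.Exp Pool.Agent.Log5 Pool.Agent.Log5.Clu

/-- `gf` tends to infinity. -/
theorem exists_gf {C : ℝ} (hC : 100 ≤ C) (k : ℝ) : ∃ n : ℕ, ∀ a : ℕ, n ≤ a → k ≤ gf C a := by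
  obtain ⟨n, hn⟩ := exists_nat_gt (Real.exp (max k 0))
  refine ⟨n, fun a ha => ?_⟩
  have h0 : (0 : ℝ) < Real.exp (max k 0) := Real.exp_pos _
  have h1 : Real.exp (max k 0) ≤ a := hn.le.trans (by exact_mod_cast ha)
  have h2 : max k 0 ≤ Real.log a := by
    rw [Real.le_log_iff_exp_le (h0.trans_le h1)]
    exact h1
  have h3 : max k 0 + 1 ≤ a := (Real.add_one_le_exp _).trans h1
  have h4 : k ≤ max k 0 := le_max_left _ _
  have h5 : (0 : ℝ) ≤ max k 0 := le_max_right _ _
  refine le_min (by linarith) ?_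
  nlinarith [mul_nonneg (by linarith : (0 : ℝ) ≤ C - 1) (sq_nonneg (1 + Real.log a))]

/-- The facts about cores follow from large girth. -/
theorem core_factsR {C : ℝ} (hC : 100 ≤ C) (N k : ℕ) : ∃ k' : ℕ, ∀ {V : Type}
    [Fintype V] [DecidableEq V] (G : SimpleGraph V) [DecidableRel G.Adj],
    (∀ v, G.degree v = 3) → Gir G k' → ∀ {r : ℕ} (S : Fin r → Finset V),
    Cores G C S → FactsR G C N k S := by
  obtain ⟨k₁, h₁⟩ := facts_A hC
  obtain ⟨x₀, hx₀, h₀⟩ := exists_large (N * C)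
  obtain ⟨k₂, h₂⟩ := exists_gf hC (10 * k)
  refine ⟨k + k₁ + k₂ + (⌈x₀⌉₊ + 1), fun G _ h3 hg r S hS => ?_⟩
  have hl := large_of h3 hg hS
  obtain ⟨hr, hi, hh⟩ := h₁ (k + k₁ + k₂ + (⌈x₀⌉₊ + 1)) (by omega) G h3 S hS hl
  refine ⟨fun i => (by omega : k ≤ _).trans (hl i), joined_of hC hS, fun i => ?_, hr, hi, hh, ?_⟩
  · have h1 := hl i
    have h2 : x₀ ≤ ((S i).card : ℝ) :=
      (Nat.le_ceil x₀).trans (by exact_mod_cast (by omega : ⌈x₀⌉₊ ≤ (S i).card))
    have h4 := (h₀ _ h2).1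
    have h5 := hS.viol i
    have h6 := gf_le C (S i).card
    have h7 : (N : ℝ) * dd G (S i) ≤ (S i).card := by
      calc (N : ℝ) * dd G (S i) ≤ N * (C * (1 + Real.log (S i).card) ^ 2) :=
            mul_le_mul_of_nonneg_left (by linarith) (Nat.cast_nonneg N)
        _ = N * C * (1 + Real.log (S i).card) ^ 2 := by ring
        _ ≤ (S i).card := h4
    exact_mod_cast h7
  · intro R hR Z hZ ha _
    have hcard : k + k₁ + k₂ + (⌈x₀⌉₊ + 1) ≤ Z.card := by
      by_contra h
      exact ha (hg Z (not_le.1 h))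
    have hne : Z.Nonempty := by
      rw [← card_pos]
      omega
    have h1 : 10 * (k : ℝ) ≤ gf C Z.card := h₂ _ (by omega)
    have h2 : gf C Z.card ≤ 10 * dd G Z := by
      have hpos : (0 : ℝ) ≤ dd G Z := Nat.cast_nonneg _
      rcases hR with ⟨i, rfl⟩ | rfl
      · by_cases he : Z = S i
        · rw [he]
          exact hh i (S i) (Subset.refl _) (by omega)
        · have := hS.sub i Z ⟨hZ, fun h => he (subset_antisymm hZ h)⟩ hne
          linarith
      · have := hS.out Z hne (fun i => by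
          rw [Finset.disjoint_left]
          intro v hv hvi
          exact (mem_compl.1 (hZ hv)) (mem_biUnion.2 ⟨i, mem_univ _, hvi⟩))
        linarith
    have h3' : (k : ℝ) ≤ dd G Z := by linarith
    exact_mod_cast h3'

end Pool.Agent.K5.Gth
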